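import Pool.Agent.H32.F14.Base

/-!
# Parts A1, A2, A3: a minimal counterexample is connected, has at most one leaf and no loops
-/

set_option autoImplicit false

noncomputable section

open Classical

namespace Pool.Agent.H36.F14

open Pool.Agent.H32.F14

variable {V D : Type} [Fintype V] [Fintype D]

omit [Fintype V] [Fintype D] in
/-- a set of darts closed under `inv` is even -/
lemma even_inv (G : DG V D) (s : Finset D) (h : ∀ d ∈ s, G.inv d ∈ s) : Even s.card := by
  have h1 : ∑ d ∈ s, (1 : ZMod 2) = 0 :=
    Finset.sum_involution (fun d _ => G.inv d) (fun d _ => by decide)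
      (fun d _ _ => G.inv_ne d) (fun d hd => h d hd) (fun d _ => G.inv_inv d)
  rw [Finset.sum_const, nsmul_eq_mul, mul_one] at h1
  exact (ZMod.natCast_eq_zero_iff_even).1 h1

/-- replacing a set by a star: exactly one boundary dart has some label -/
lemma star_gadget (G : DG V D) (hG : MinCex G) (K : Finset V) (k : ℕ)
    (hk : k = 1 ∨ k = 3 ∨ k = 5) (hb : (G.bdry K).card = k) (hlt : k < (G.dartsOn K).card) :
    ∃ f, G.ValidOn Kᶜ f ∧ ∃ ε, ((G.bdry K).filter (fun b => f b = ε)).card = 1 := by
  have hcard : Fintype.card {b // b ∈ G.bdry K} = k := by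
    rw [Fintype.card_coe, hb]
  let e : {b // b ∈ G.bdry K} ≃ Fin k := Fintype.equivFinOfCardEq hcard
  obtain ⟨f, g, hf, hg, hv⟩ := gadget V D G hG K Unit (Fin k) (fun _ => ())
    (by intro w; simpa using hk)
    (by rw [Fintype.card_fin]; exact hlt)
    (Sum.elim (fun b => Sum.inr (e b)) (fun i => Sum.inl (e.symm i)))
    (by rintro (b | i) <;> simp)
    (by rintro (b | i) <;> simp)
  have hfe : ∀ b : {b // b ∈ G.bdry K}, g (e b) = f b.1 := by
    intro b
    have := hv (Sum.inl b)
    simpa using this
  have hcnt : ∀ ε : Bool, ((G.bdry K).filter (fun b => f b = ε)).card =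
      (Finset.univ.filter (fun i : Fin k => g i = ε)).card := by
    intro ε
    refine Finset.card_bij (fun b hb' => e ⟨b, (Finset.mem_filter.1 hb').1⟩) ?_ ?_ ?_
    · intro b hb'
      rw [Finset.mem_filter]
      exact ⟨Finset.mem_univ _, by rw [hfe]; exact (Finset.mem_filter.1 hb').2⟩
    · intro b hb' c hc' h
      have := e.injective h
      exact congrArg Subtype.val this
    · intro i hi
      refine ⟨(e.symm i).1, Finset.mem_filter.2 ⟨(e.symm i).2, ?_⟩, ?_⟩
      · rw [← hfe (e.symm i), Equiv.apply_symm_apply]
        exact (Finset.mem_filter.1 hi).2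
      · exact e.apply_symm_apply i
  refine ⟨f, hf, ?_⟩
  have h1 : (Finset.univ.filter (fun i : Fin k => g i = true)).card = 1 ∨
      (Finset.univ.filter (fun i : Fin k => g i = true)).card + 1 = k := by
    simpa using hg ()
  rcases h1 with h1 | h1
  · exact ⟨true, by rw [hcnt]; exact h1⟩
  · refine ⟨false, ?_⟩
    rw [hcnt]
    have h3 := Finset.card_filter_add_card_filter_not (s := (Finset.univ : Finset (Fin k)))
      (fun i => g i = true)
    rw [Finset.card_univ, Fintype.card_fin] at h3
    have h4 : (Finset.univ.filter (fun i : Fin k => ¬ g i = true)) =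
        Finset.univ.filter (fun i : Fin k => g i = false) := by
      apply Finset.filter_congr
      intro i _
      simp
    rw [h4] at h3
    omega

lemma deg_pos {G : DG V D} (hG : MinCex G) (v : V) : ∃ d, G.att d = v := by
  have h := hG.deg135 v
  have h1 : 0 < (G.darts v).card := by
    have : G.deg v = (G.darts v).card := rfl
    omega
  obtain ⟨d, hd⟩ := Finset.card_pos.1 h1
  exact ⟨d, (mem_darts G v d).1 hd⟩

/-- a set without boundary can be removed -/
lemma empty_gadget (G : DG V D) (hG : MinCex G) (K : Finset V) (hne : K.Nonempty)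
    (hb : G.bdry K = ∅) : ∃ f, G.ValidOn Kᶜ f := by
  obtain ⟨v, hv⟩ := hne
  obtain ⟨d, hd⟩ := deg_pos hG v
  have hem : ∀ x : {b // b ∈ G.bdry K} ⊕ Empty, False := by
    rintro (b | w)
    · exact Finset.eq_empty_iff_forall_notMem.1 hb b.1 b.2
    · exact w.elim
  obtain ⟨f, g, hf, -, -⟩ := gadget V D G hG K Empty Empty (fun x => x)
    (fun w => w.elim)
    (by
      rw [Fintype.card_empty]
      refine Finset.card_pos.2 ⟨d, ?_⟩
      unfold DG.dartsOn
      rw [Finset.mem_filter]
      exact ⟨Finset.mem_univ _, by rw [hd]; exact hv⟩)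
    (fun x => (hem x).elim) (fun x => (hem x).elim) (fun x => (hem x).elim)
  exact ⟨f, hf⟩

lemma bdry_compl (G : DG V D) (K : Finset V) (h : G.bdry K = ∅) : G.bdry Kᶜ = ∅ := by
  rw [Finset.eq_empty_iff_forall_notMem]
  intro b hb
  rw [mem_bdry, Finset.mem_compl, Finset.mem_compl, not_not] at hb
  have : G.inv b ∈ G.bdry K := by
    rw [mem_bdry, G.inv_inv]
    exact ⟨hb.2, hb.1⟩
  rw [h] at this
  exact absurd this (Finset.notMem_empty _)

theorem a1 : StmtA1 := by
  intro V D _ _ G hG K hne huniv
  by_contra hcon
  rw [Finset.not_nonempty_iff_eq_empty] at hcon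
  obtain ⟨f, hf⟩ := empty_gadget G hG K hne hcon
  have hne' : (Kᶜ).Nonempty := by
    rw [Finset.nonempty_iff_ne_empty]
    intro h
    exact huniv (by rw [← compl_compl K, h, Finset.compl_empty])
  obtain ⟨g, hg⟩ := empty_gadget G hG Kᶜ hne' (bdry_compl G K hcon)
  rw [compl_compl] at hg
  refine hG.nosol (glue V D G K g f hg hf ?_)
  intro b hb
  rw [hcon] at hb
  exact absurd hb (Finset.notMem_empty _)

lemma leaf_dart {G : DG V D} {v : V} (h : G.deg v = 1) :
    ∃ d, G.att d = v ∧ ∀ d', G.att d' = v → d' = d := by
  obtain ⟨d, hd⟩ := Finset.card_eq_one.1 (show (G.darts v).card = 1 from h)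
  have h1 : d ∈ G.darts v := by rw [hd]; exact Finset.mem_singleton_self d
  refine ⟨d, (mem_darts G v d).1 h1, fun d' hd' => ?_⟩
  have h2 : d' ∈ G.darts v := (mem_darts G v d').2 hd'
  rw [hd, Finset.mem_singleton] at h2
  exact h2

theorem a2 : StmtA2 := by
  intro V D _ _ G hG u v hu hv
  by_contra huv
  obtain ⟨d, hd, hd'⟩ := leaf_dart hu
  obtain ⟨e, he, he'⟩ := leaf_dart hv
  have hde : d ≠ e := by
    intro h
    rw [h] at hd
    exact huv (hd.symm.trans he)
  have hne : ({u, v} : Finset V).Nonempty := ⟨u, by simp⟩
  -- a valid labelling outside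
  have key : ∃ f, G.ValidOn ({u, v} : Finset V)ᶜ f := by
    by_cases hinv : G.inv d = e
    · refine empty_gadget G hG _ hne ?_
      rw [Finset.eq_empty_iff_forall_notMem]
      intro b hb
      rw [mem_bdry, Finset.mem_insert, Finset.mem_singleton, Finset.mem_insert,
        Finset.mem_singleton] at hb
      apply hb.2
      rcases hb.1 with h | h
      · rw [hd' b h, hinv]
        exact Or.inr he
      · rw [he' b h, ← hinv, G.inv_inv]
        exact Or.inl hd
    · have hb : ∀ b, b ∈ G.bdry ({u, v} : Finset V) ↔ b = d ∨ b = e := by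
        intro b
        rw [mem_bdry, Finset.mem_insert, Finset.mem_singleton, Finset.mem_insert,
          Finset.mem_singleton]
        constructor
        · rintro ⟨h | h, -⟩
          · exact Or.inl (hd' b h)
          · exact Or.inr (he' b h)
        · rintro (h | h)
          · subst h
            refine ⟨Or.inl hd, ?_⟩
            rintro (h | h)
            · exact G.inv_ne b (hd' _ h)
            · exact hinv (he' _ h)
          · subst h
            refine ⟨Or.inr he, ?_⟩
            rintro (h | h)
            · have := hd' _ h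
              apply hinv
              rw [← this, G.inv_inv]
            · exact G.inv_ne b (he' _ h)
      obtain ⟨f, g, hf, -, -⟩ := gadget V D G hG ({u, v} : Finset V) Empty Empty (fun x => x)
        (fun w => w.elim)
        (by
          rw [Fintype.card_empty]
          refine Finset.card_pos.2 ⟨d, ?_⟩
          unfold DG.dartsOn
          rw [Finset.mem_filter]
          exact ⟨Finset.mem_univ _, by rw [hd]; simp⟩)
        (Sum.elim (fun b => if b.1 = d then Sum.inl ⟨e, (hb e).2 (Or.inr rfl)⟩
          else Sum.inl ⟨d, (hb d).2 (Or.inl rfl)⟩) (fun w => w.elim))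
        (by
          rintro (b | w)
          · rcases (hb b.1).1 b.2 with h | h
            · simp only [Sum.elim_inl, h, if_true]
              rw [if_neg (Ne.symm hde)]
              congr 1
              exact Subtype.ext h.symm
            · have h' : b.1 ≠ d := by rw [h]; exact Ne.symm hde
              simp only [Sum.elim_inl, h', if_false, if_true]
              congr 1
              exact Subtype.ext h.symm
          · exact w.elim)
        (by
          rintro (b | w)
          · rcases (hb b.1).1 b.2 with h | h
            · simp only [Sum.elim_inl, h, if_true]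
              intro hh
              have h2 := congrArg Subtype.val (Sum.inl.inj hh)
              simp only at h2
              exact hde (h.symm.trans h2.symm)
            · have h' : b.1 ≠ d := by rw [h]; exact Ne.symm hde
              simp only [Sum.elim_inl, h', if_false]
              intro hh
              have h2 := congrArg Subtype.val (Sum.inl.inj hh)
              simp only at h2
              exact h' h2.symm
          · exact w.elim)
      exact ⟨f, hf⟩
  obtain ⟨f, hf⟩ := key
  refine glue_set G hG ({u, v} : Finset V) f hf true ∅ (by simp) (by simp) ?_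
  intro w hw
  have hw1 : G.deg w = 1 := by
    rw [Finset.mem_insert, Finset.mem_singleton] at hw
    rcases hw with h | h
    · rw [h]; exact hu
    · rw [h]; exact hv
  have h1 : ((G.darts w).filter (fun d => d ∈ (∅ : Finset D) ∨
      (d ∈ G.bdry ({u, v} : Finset V) ∧ f d = true))).card ≤ G.deg w :=
    Finset.card_le_card (Finset.filter_subset _ _)
  omega

theorem a3 : StmtA3 := by
  intro V D _ _ G hG d hd
  set v := G.att d with hv
  -- the boundary of `{v}`
  have hmem : ∀ b, b ∈ G.bdry ({v} : Finset V) ↔ G.att b = v ∧ G.att (G.inv b) ≠ v := by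
    intro b
    rw [mem_bdry, Finset.mem_singleton, Finset.mem_singleton]
  have hin : ((G.darts v).filter (fun b => G.att (G.inv b) = v)).card +
      (G.bdry ({v} : Finset V)).card = G.deg v := by
    have h1 := Finset.card_filter_add_card_filter_not (s := G.darts v)
      (fun b => G.att (G.inv b) = v)
    have h2 : (G.darts v).filter (fun b => ¬ G.att (G.inv b) = v) = G.bdry ({v} : Finset V) := by
      ext b
      rw [Finset.mem_filter, mem_darts, hmem]
    rw [h2] at h1
    exact h1
  have heven : Even ((G.darts v).filter (fun b => G.att (G.inv b) = v)).card := by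
    apply even_inv G
    intro b hb
    rw [Finset.mem_filter, mem_darts] at hb ⊢
    rw [G.inv_inv]
    exact ⟨hb.2, hb.1⟩
  have hpos : 0 < ((G.darts v).filter (fun b => G.att (G.inv b) = v)).card := by
    refine Finset.card_pos.2 ⟨d, ?_⟩
    rw [Finset.mem_filter, mem_darts]
    exact ⟨hv.symm, hd⟩
  have hdeg := hG.deg135 v
  have hon : (G.dartsOn ({v} : Finset V)).card = G.deg v := by
    unfold DG.dartsOn DG.deg DG.darts
    congr 1
    apply Finset.filter_congr
    intro b _
    rw [Finset.mem_singleton]
  obtain ⟨r, hr⟩ := heven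
  obtain ⟨f, hf, ε, hε⟩ := star_gadget G hG ({v} : Finset V) (G.bdry ({v} : Finset V)).card
    (by omega) rfl (by omega)
  refine glue_set G hG ({v} : Finset V) f hf ε ∅ (by simp) (by simp) ?_
  intro w hw
  rw [Finset.mem_singleton] at hw
  subst hw
  left
  rw [← hε]
  congr 1
  ext b
  rw [Finset.mem_filter, Finset.mem_filter, mem_darts]
  constructor
  · rintro ⟨-, h | h⟩
    · exact absurd h (Finset.notMem_empty _)
    · exact h
  · intro h
    exact ⟨((hmem b).1 h.1).1, Or.inr h⟩

end Pool.Agent.H36.F14
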