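import Pool.Agent.H32.F14.Iface

/-!
# Part D: the discharging lemma from its parts
-/

set_option autoImplicit false

noncomputable section

open Classical

namespace Pool.Agent.H36.F14

open Pool.Agent.H32.F14

theorem d (h1 : StmtD1) (h2a : StmtD2a) (h2b : StmtD2b) (h2d : StmtD2d) : StmtD := by
  intro ι β _ _ e full dem kind lef odd ge3 simple hcard hpos htight cut2 locC locT locK
  have hB : DBase e full dem := ⟨kind, lef, odd, ge3, simple⟩
  have hL : DLoc e full dem := ⟨cut2, locC, locT, locK⟩
  obtain ⟨J, H, _, _, Z, X, I, gam, hcs⟩ := h1 ι β e full dem hB hpos htight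
  have ha := h2a ι β J H e full dem Z X I gam hB hL hcs
  have hb := h2b ι β J H e full dem Z X I gam hB hL hcs
  have hd := h2d ι β J H e full dem Z X I gam hB hcs
  have sa := Finset.sum_le_sum (s := Finset.univ) (fun j _ => ha j)
  have sb := Finset.sum_le_sum (s := Finset.univ) (fun i _ => hb i)
  rw [Finset.sum_add_distrib, Finset.sum_add_distrib] at sa sb
  have swap : ∀ w : H → J → ℕ, ∑ j, ∑ i ∈ I j, w i j =
      ∑ i, ∑ j ∈ Finset.univ.filter (fun j => i ∈ I j), w i j := by
    intro w
    refine Finset.sum_comm' ?_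
    intro j i
    simp
  have s1 := swap (fun i j => 2 + eK e Z X i j)
  have s2 := swap (fun i j => need e full dem Z X I gam i j)
  have hdem : ∑ j, demA dem (Z j) + ∑ i, demA dem (X i) ≤ ∑ s, dem s := by
    unfold demA
    have k1 : ∑ j, ∑ s ∈ Z j, dem s = ∑ s ∈ Finset.univ.biUnion Z, dem s := by
      rw [Finset.sum_biUnion]
      intro j _ j' _ hne
      exact hcs.ZZ j j' hne
    have k2 : ∑ i, ∑ s ∈ X i, dem s = ∑ s ∈ Finset.univ.biUnion X, dem s := by
      rw [Finset.sum_biUnion]
      intro i _ i' _ hne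
      exact hcs.XX i i' hne
    have k3 : Disjoint (Finset.univ.biUnion Z) (Finset.univ.biUnion X) := by
      rw [Finset.disjoint_left]
      intro s hs hs'
      obtain ⟨j, -, hj⟩ := Finset.mem_biUnion.1 hs
      obtain ⟨i, -, hi⟩ := Finset.mem_biUnion.1 hs'
      exact Finset.disjoint_left.1 (hcs.ZX j i) hj hi
    rw [k1, k2, ← Finset.sum_union k3]
    exact Finset.sum_le_sum_of_subset (Finset.subset_univ _)
  rw [← Finset.mul_sum] at sa sb
  rw [hcard] at hd
  omega

end Pool.Agent.H36.F14
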