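import Pool.Agent.H32.F14.Iface

/-!
# Part D1 of the discharging lemma: uncrossing gives a cluster system
-/

set_option autoImplicit false

noncomputable section

open Classical

namespace Pool.Agent.H36.F14

open Pool.Agent.H32.F14

variable {ι β : Type} [Fintype ι] [Fintype β]

/-- excess of the rank over the demand -/
def gx (e : ι → β → ℕ) (dem : ι → ℕ) (A : Finset ι) : ℤ := (rA e A : ℤ) - (demA dem A : ℤ)

/-- overlap of two disjoint sets -/
def ovx (e : ι → β → ℕ) (A B : Finset ι) : ℕ :=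
  (Finset.univ.filter (fun C => dC e C ≠ 3 ∧ eA e A C ≠ 0 ∧ eA e B C ≠ 0)).card +
  (Finset.univ.filter (fun C => dC e C = 3 ∧ eA e A C + eA e B C = 3 ∧ eA e A C ≠ 0 ∧
    eA e A C ≠ 3)).card

omit [Fintype ι] [Fintype β] in
lemma eA_union {e : ι → β → ℕ} {A B : Finset ι} (h : Disjoint A B) (C : β) :
    eA e (A ∪ B) C = eA e A C + eA e B C := by
  unfold eA
  exact Finset.sum_union h

omit [Fintype ι] [Fintype β] in
lemma eA_inter {e : ι → β → ℕ} (A B : Finset ι) (C : β) :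
    eA e (A ∪ B) C + eA e (A ∩ B) C = eA e A C + eA e B C := by
  unfold eA
  exact Finset.sum_union_inter

omit [Fintype ι] [Fintype β] in
lemma eA_mono {e : ι → β → ℕ} {A B : Finset ι} (h : A ⊆ B) (C : β) : eA e A C ≤ eA e B C := by
  unfold eA
  exact Finset.sum_le_sum_of_subset h

omit [Fintype β] in
lemma eA_le {e : ι → β → ℕ} (A : Finset ι) (C : β) : eA e A C ≤ dC e C := by
  unfold eA dC
  exact Finset.sum_le_sum_of_subset (Finset.subset_univ _)

lemma gx_sub (e : ι → β → ℕ) (dem : ι → ℕ) (A B : Finset ι) :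
    gx e dem (A ∪ B) + gx e dem (A ∩ B) ≤ gx e dem A + gx e dem B := by
  have h1 : rA e (A ∪ B) + rA e (A ∩ B) ≤ rA e A + rA e B := by
    unfold rA
    rw [← Finset.sum_add_distrib, ← Finset.sum_add_distrib]
    refine Finset.sum_le_sum fun C _ => ?_
    have h2 := eA_inter (e := e) A B C
    have h3 := eA_mono (e := e) (Finset.inter_subset_left (s₁ := A) (s₂ := B)) C
    have h4 := eA_mono (e := e) (Finset.inter_subset_right (s₁ := A) (s₂ := B)) C
    omega
  have h5 : demA dem (A ∪ B) + demA dem (A ∩ B) = demA dem A + demA dem B := by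
    unfold demA
    exact Finset.sum_union_inter
  unfold gx
  omega

lemma gx_disj (e : ι → β → ℕ) (dem : ι → ℕ) {A B : Finset ι} (h : Disjoint A B) :
    gx e dem (A ∪ B) + (ovx e A B : ℤ) = gx e dem A + gx e dem B := by
  have h1 : rA e (A ∪ B) + ovx e A B = rA e A + rA e B := by
    unfold rA ovx
    rw [Finset.card_filter, Finset.card_filter, ← Finset.sum_add_distrib,
      ← Finset.sum_add_distrib, ← Finset.sum_add_distrib]
    refine Finset.sum_congr rfl fun C _ => ?_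
    have h2 := eA_union (e := e) h C
    have h3 := eA_le (e := e) (A ∪ B) C
    rw [h2] at h3 ⊢
    unfold uC
    by_cases h4 : dC e C = 3
    · by_cases h5 : eA e A C + eA e B C = 3 ∧ eA e A C ≠ 0 ∧ eA e A C ≠ 3
      · simp only [h4, ne_eq, not_true_eq_false, false_and, if_false, true_and, if_true]
        rw [if_pos h5]
        omega
      · simp only [h4, ne_eq, not_true_eq_false, false_and, if_false, true_and, if_true]
        rw [if_neg h5]
        omega
    · by_cases h5 : eA e A C ≠ 0 ∧ eA e B C ≠ 0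
      · simp only [h4, ne_eq, not_false_eq_true, false_and, if_false, true_and]
        rw [if_pos h5]
        omega
      · simp only [h4, ne_eq, not_false_eq_true, false_and, if_false, true_and]
        rw [if_neg h5]
        omega
  have h5 : demA dem (A ∪ B) = demA dem A + demA dem B := by
    unfold demA
    exact Finset.sum_union h
  unfold gx
  omega

lemma gx_empty (e : ι → β → ℕ) (dem : ι → ℕ) : gx e dem ∅ = 0 := by
  unfold gx rA demA eA
  simp

/-- extension to a maximal set -/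
lemma exists_maxset (P : Finset ι → Prop) (A : Finset ι) (hA : P A) :
    ∃ X, A ⊆ X ∧ P X ∧ ∀ Y, X ⊆ Y → P Y → Y = X := by
  obtain ⟨X, hX, hmax⟩ := Finset.exists_max_image
    ((Finset.univ : Finset (Finset ι)).filter (fun Y => A ⊆ Y ∧ P Y)) Finset.card
    ⟨A, by simp [hA]⟩
  simp only [Finset.mem_filter, Finset.mem_univ, true_and] at hX hmax
  refine ⟨X, hX.1, hX.2, fun Y hXY hY => ?_⟩
  exact (Finset.eq_of_subset_of_card_le hXY (hmax Y ⟨hX.1.trans hXY, hY⟩)).symm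

/-- the maximal sets with excess one -/
def MX (e : ι → β → ℕ) (dem : ι → ℕ) : Finset (Finset ι) :=
  (Finset.univ : Finset (Finset ι)).filter
    (fun X => X.Nonempty ∧ gx e dem X = 1 ∧ ∀ Y, X ⊆ Y → gx e dem Y = 1 → Y = X)

section
variable {e : ι → β → ℕ} {dem : ι → ℕ} (hpos : ∀ A : Finset ι, A.Nonempty → 1 ≤ gx e dem A)
include hpos

lemma mx_ext {A : Finset ι} (hA : A.Nonempty) (h1 : gx e dem A ≤ 1) :
    ∃ X ∈ MX e dem, A ⊆ X := by
  have h2 := hpos A hA
  obtain ⟨X, hAX, hX, hmax⟩ := exists_maxset (fun Y => gx e dem Y = 1) A (by omega)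
  refine ⟨X, ?_, hAX⟩
  unfold MX
  simp only [Finset.mem_filter, Finset.mem_univ, true_and]
  exact ⟨hA.mono hAX, hX, hmax⟩

lemma mx_disj {X Y : Finset ι} (hX : X ∈ MX e dem) (hY : Y ∈ MX e dem) (hne : X ≠ Y) :
    Disjoint X Y := by
  unfold MX at hX hY
  simp only [Finset.mem_filter, Finset.mem_univ, true_and] at hX hY
  by_contra hd
  rw [Finset.disjoint_iff_inter_eq_empty] at hd
  have hne' : (X ∩ Y).Nonempty := Finset.nonempty_iff_ne_empty.2 hd
  have h1 := hpos _ hne'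
  have h2 := gx_sub e dem X Y
  have h3 := hpos (X ∪ Y) (hX.1.mono Finset.subset_union_left)
  have h4 : gx e dem (X ∪ Y) = 1 := by omega
  have h5 := hX.2.2 _ Finset.subset_union_left h4
  have h6 := hY.2.2 _ Finset.subset_union_right h4
  exact hne (h5.symm.trans h6)

lemma mx_ov {X Y : Finset ι} (hX : X ∈ MX e dem) (hY : Y ∈ MX e dem) (hne : X ≠ Y) :
    ovx e X Y = 0 := by
  have hd := mx_disj hpos hX hY hne
  have h1 := gx_disj e dem hd
  unfold MX at hX hY
  simp only [Finset.mem_filter, Finset.mem_univ, true_and] at hX hY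
  have h2 : 2 ≤ gx e dem (X ∪ Y) := by
    by_contra hc
    have h3 := hpos (X ∪ Y) (hX.1.mono Finset.subset_union_left)
    have h4 : gx e dem (X ∪ Y) = 1 := by omega
    have h5 := hX.2.2 _ Finset.subset_union_left h4
    have h6 := hY.2.2 _ Finset.subset_union_right h4
    exact hne (h5.symm.trans h6)
  omega

end

/-- tight sets outside the maximal sets with excess one -/
def Tgt (e : ι → β → ℕ) (dem : ι → ℕ) (Z : Finset ι) : Prop :=
  Z.Nonempty ∧ (∀ s ∈ Z, ∀ X ∈ MX e dem, s ∉ X) ∧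
    ∃ I ⊆ MX e dem, gx e dem (Z ∪ I.biUnion id) ≤ 2

/-- maximal tight sets -/
def MZ (e : ι → β → ℕ) (dem : ι → ℕ) : Finset (Finset ι) :=
  (Finset.univ : Finset (Finset ι)).filter
    (fun Z => Tgt e dem Z ∧ ∀ Y, Z ⊆ Y → Tgt e dem Y → Y = Z)

section
variable {e : ι → β → ℕ} {dem : ι → ℕ} (hpos : ∀ A : Finset ι, A.Nonempty → 1 ≤ gx e dem A)
include hpos

/-- a set that is not inside a member of `MX` has excess at least two -/
lemma two_le {A : Finset ι} (hA : A.Nonempty) (h : ∀ X ∈ MX e dem, ¬ A ⊆ X) :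
    2 ≤ gx e dem A := by
  by_contra hc
  obtain ⟨X, hX, hAX⟩ := mx_ext hpos hA (by omega)
  exact h X hX hAX

lemma tgt_exists (htight : ∀ s, ∃ A : Finset ι, s ∈ A ∧ gx e dem A ≤ 2) {s : ι}
    (hs : ∀ X ∈ MX e dem, s ∉ X) : ∃ Z, s ∈ Z ∧ Tgt e dem Z := by
  obtain ⟨A0, hsA0, hA0⟩ := htight s
  obtain ⟨A, hA0A, hA, hmax⟩ := exists_maxset (fun Y => gx e dem Y ≤ 2) A0 hA0
  have hsA := hA0A hsA0
  have key : ∀ X ∈ MX e dem, (∃ t ∈ X, t ∈ A) → X ⊆ A := by
    intro X hX ⟨t, htX, htA⟩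
    have h1 := gx_sub e dem A X
    have h2 := hpos (A ∩ X) ⟨t, Finset.mem_inter.2 ⟨htA, htX⟩⟩
    have h3 : gx e dem X = 1 := by
      unfold MX at hX
      simp only [Finset.mem_filter, Finset.mem_univ, true_and] at hX
      exact hX.2.1
    have h4 := hmax (A ∪ X) Finset.subset_union_left (by omega)
    rw [← h4]
    exact Finset.subset_union_right
  refine ⟨A.filter (fun s => ∀ X ∈ MX e dem, s ∉ X), ?_, ?_, ?_, ?_⟩
  · exact Finset.mem_filter.2 ⟨hsA, hs⟩
  · exact ⟨s, Finset.mem_filter.2 ⟨hsA, hs⟩⟩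
  · intro t ht
    exact (Finset.mem_filter.1 ht).2
  · refine ⟨(MX e dem).filter (fun X => X ⊆ A), Finset.filter_subset _ _, ?_⟩
    have : A.filter (fun s => ∀ X ∈ MX e dem, s ∉ X) ∪
        ((MX e dem).filter (fun X => X ⊆ A)).biUnion id = A := by
      ext t
      simp only [Finset.mem_union, Finset.mem_filter, Finset.mem_biUnion, id]
      constructor
      · rintro (⟨h, -⟩ | ⟨X, ⟨-, hXA⟩, htX⟩)
        · exact h
        · exact hXA htX
      · intro ht
        by_cases h : ∀ X ∈ MX e dem, t ∉ X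
        · exact Or.inl ⟨ht, h⟩
        · obtain ⟨X, hX, htX⟩ : ∃ X, X ∈ MX e dem ∧ t ∈ X := by
            by_contra hcon
            exact h (fun X hX ht' => hcon ⟨X, hX, ht'⟩)
          exact Or.inr ⟨X, ⟨hX, key X hX ⟨t, htX, ht⟩⟩, htX⟩
    rw [this]
    exact hA

omit hpos in
lemma tgt_union {Z Z' : Finset ι} {I I' : Finset (Finset ι)} (hZ : Z.Nonempty)
    (hZ' : ∀ s ∈ Z, ∀ X ∈ MX e dem, s ∉ X)
    (hZ2' : ∀ s ∈ Z', ∀ X ∈ MX e dem, s ∉ X)
    (hI : I ⊆ MX e dem) (hI' : I' ⊆ MX e dem)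
    (hg : gx e dem (Z ∪ I.biUnion id) ≤ 2) (hg' : gx e dem (Z' ∪ I'.biUnion id) ≤ 2)
    (h2 : 2 ≤ gx e dem ((Z ∪ I.biUnion id) ∩ (Z' ∪ I'.biUnion id))) :
    Tgt e dem (Z ∪ Z') := by
  refine ⟨hZ.mono Finset.subset_union_left, ?_, I ∪ I', Finset.union_subset hI hI', ?_⟩
  · intro s hs
    rcases Finset.mem_union.1 hs with h | h
    · exact hZ' s h
    · exact hZ2' s h
  · have h3 := gx_sub e dem (Z ∪ I.biUnion id) (Z' ∪ I'.biUnion id)
    have h4 : (Z ∪ I.biUnion id) ∪ (Z' ∪ I'.biUnion id) = (Z ∪ Z') ∪ (I ∪ I').biUnion id := by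
      ext t
      simp only [Finset.mem_union, Finset.mem_biUnion, id]
      constructor
      · rintro ((h | ⟨X, hX, h⟩) | (h | ⟨X, hX, h⟩))
        · exact Or.inl (Or.inl h)
        · exact Or.inr ⟨X, Or.inl hX, h⟩
        · exact Or.inl (Or.inr h)
        · exact Or.inr ⟨X, Or.inr hX, h⟩
      · rintro ((h | h) | ⟨X, hX | hX, h⟩)
        · exact Or.inl (Or.inl h)
        · exact Or.inr (Or.inl h)
        · exact Or.inl (Or.inr ⟨X, hX, h⟩)
        · exact Or.inr (Or.inr ⟨X, hX, h⟩)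
    rw [← h4]
    omega

lemma mz_disj {Z Z' : Finset ι} (hZ : Z ∈ MZ e dem) (hZ' : Z' ∈ MZ e dem) (hne : Z ≠ Z') :
    Disjoint Z Z' := by
  unfold MZ at hZ hZ'
  simp only [Finset.mem_filter, Finset.mem_univ, true_and] at hZ hZ'
  by_contra hd
  rw [Finset.disjoint_iff_inter_eq_empty] at hd
  obtain ⟨s, hs⟩ := Finset.nonempty_iff_ne_empty.2 hd
  rw [Finset.mem_inter] at hs
  obtain ⟨⟨hn, ho, I, hI, hg⟩, hmax⟩ := hZ
  obtain ⟨⟨hn', ho', I', hI', hg'⟩, hmax'⟩ := hZ'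
  have h2 : 2 ≤ gx e dem ((Z ∪ I.biUnion id) ∩ (Z' ∪ I'.biUnion id)) := by
    have hs' : s ∈ (Z ∪ I.biUnion id) ∩ (Z' ∪ I'.biUnion id) :=
      Finset.mem_inter.2 ⟨Finset.mem_union_left _ hs.1, Finset.mem_union_left _ hs.2⟩
    exact two_le hpos ⟨s, hs'⟩ (fun X hX hsub => ho s hs.1 X hX (hsub hs'))
  have h3 := tgt_union hn ho ho' hI hI' hg hg' h2
  have h4 := hmax _ Finset.subset_union_left h3
  have h5 := hmax' _ Finset.subset_union_right h3
  exact hne (h4.symm.trans h5)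

end

/-- number of the maximal tight sets that use the hub `X` -/
def mux (e : ι → β → ℕ) (dem : ι → ℕ) (IZ : Finset ι → Finset (Finset ι)) (X : Finset ι) : ℕ :=
  ((MZ e dem).filter (fun Z => X ∈ IZ Z)).card

lemma mem_MX {e : ι → β → ℕ} {dem : ι → ℕ} {X : Finset ι} (h : X ∈ MX e dem) :
    X.Nonempty ∧ gx e dem X = 1 := by
  unfold MX at h
  simp only [Finset.mem_filter, Finset.mem_univ, true_and] at h
  exact ⟨h.1, h.2.1⟩

lemma mem_MZ {e : ι → β → ℕ} {dem : ι → ℕ} {Z : Finset ι} (h : Z ∈ MZ e dem) :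
    Tgt e dem Z := by
  unfold MZ at h
  simp only [Finset.mem_filter, Finset.mem_univ, true_and] at h
  exact h.1

lemma MZ_max {e : ι → β → ℕ} {dem : ι → ℕ} {Z Y : Finset ι} (h : Z ∈ MZ e dem)
    (hZY : Z ⊆ Y) (hY : Tgt e dem Y) : Y = Z := by
  unfold MZ at h
  simp only [Finset.mem_filter, Finset.mem_univ, true_and] at h
  exact h.2 Y hZY hY

/-- the choice of a minimal set of maximal sets for every maximal tight set -/
structure GoodIZ (e : ι → β → ℕ) (dem : ι → ℕ) (IZ : Finset ι → Finset (Finset ι)) : Prop where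
  sub : ∀ Z ∈ MZ e dem, IZ Z ⊆ MX e dem
  le2 : ∀ Z ∈ MZ e dem, gx e dem (Z ∪ (IZ Z).biUnion id) ≤ 2
  min : ∀ Z ∈ MZ e dem, ∀ I' ⊆ MX e dem, gx e dem (Z ∪ I'.biUnion id) ≤ 2 →
    (IZ Z).card ≤ I'.card

lemma exists_goodIZ (e : ι → β → ℕ) (dem : ι → ℕ) : ∃ IZ, GoodIZ e dem IZ := by
  have h : ∀ Z : Finset ι, ∃ I : Finset (Finset ι), Z ∈ MZ e dem → I ⊆ MX e dem ∧
      gx e dem (Z ∪ I.biUnion id) ≤ 2 ∧ ∀ I' ⊆ MX e dem, gx e dem (Z ∪ I'.biUnion id) ≤ 2 →
        I.card ≤ I'.card := by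
    intro Z
    by_cases hZ : Z ∈ MZ e dem
    · obtain ⟨-, -, I, hI, hg⟩ := mem_MZ hZ
      obtain ⟨J, hJ, hmin⟩ := Finset.exists_min_image
        ((Finset.univ : Finset (Finset (Finset ι))).filter
          (fun I => I ⊆ MX e dem ∧ gx e dem (Z ∪ I.biUnion id) ≤ 2)) Finset.card
        ⟨I, by simp only [Finset.mem_filter, Finset.mem_univ, true_and]; exact ⟨hI, hg⟩⟩
      simp only [Finset.mem_filter, Finset.mem_univ, true_and] at hJ hmin
      exact ⟨J, fun _ => ⟨hJ.1, hJ.2, fun I' h1 h2 => hmin I' ⟨h1, h2⟩⟩⟩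
    · exact ⟨∅, fun h => absurd h hZ⟩
  choose IZ hIZ using h
  exact ⟨IZ, fun Z hZ => (hIZ Z hZ).1, fun Z hZ => (hIZ Z hZ).2.1, fun Z hZ => (hIZ Z hZ).2.2⟩

section
variable {e : ι → β → ℕ} {dem : ι → ℕ} (hpos : ∀ A : Finset ι, A.Nonempty → 1 ≤ gx e dem A)
  {IZ : Finset ι → Finset (Finset ι)} (hIZ : GoodIZ e dem IZ)
include hpos hIZ

lemma gx_A {Z : Finset ι} (hZ : Z ∈ MZ e dem) : gx e dem (Z ∪ (IZ Z).biUnion id) = 2 := by
  obtain ⟨⟨s, hs⟩, ho, -⟩ := mem_MZ hZ
  have h1 : 2 ≤ gx e dem (Z ∪ (IZ Z).biUnion id) := by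
    have hs' : s ∈ Z ∪ (IZ Z).biUnion id := Finset.mem_union_left _ hs
    exact two_le hpos ⟨s, hs'⟩ (fun X hX hsub => ho s hs X hX (hsub hs'))
  have h2 := hIZ.le2 Z hZ
  omega

lemma inter_le {Z Z' : Finset ι} (hZ : Z ∈ MZ e dem) (hZ' : Z' ∈ MZ e dem) (hne : Z ≠ Z') :
    (IZ Z ∩ IZ Z').card ≤ 1 := by
  by_contra hc
  obtain ⟨X1, h1, X2, h2, h12⟩ := Finset.one_lt_card.1 (by omega : 1 < (IZ Z ∩ IZ Z').card)
  rw [Finset.mem_inter] at h1 h2
  obtain ⟨hn, ho, -⟩ := mem_MZ hZ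
  obtain ⟨hn', ho', -⟩ := mem_MZ hZ'
  have hX1 := hIZ.sub Z hZ h1.1
  have hX2 := hIZ.sub Z hZ h2.1
  obtain ⟨s1, hs1⟩ := (mem_MX hX1).1
  obtain ⟨s2, hs2⟩ := (mem_MX hX2).1
  have m1 : s1 ∈ (Z ∪ (IZ Z).biUnion id) ∩ (Z' ∪ (IZ Z').biUnion id) :=
    Finset.mem_inter.2 ⟨Finset.mem_union_right _ (Finset.mem_biUnion.2 ⟨X1, h1.1, hs1⟩),
      Finset.mem_union_right _ (Finset.mem_biUnion.2 ⟨X1, h1.2, hs1⟩)⟩
  have m2 : s2 ∈ (Z ∪ (IZ Z).biUnion id) ∩ (Z' ∪ (IZ Z').biUnion id) :=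
    Finset.mem_inter.2 ⟨Finset.mem_union_right _ (Finset.mem_biUnion.2 ⟨X2, h2.1, hs2⟩),
      Finset.mem_union_right _ (Finset.mem_biUnion.2 ⟨X2, h2.2, hs2⟩)⟩
  have h3 : 2 ≤ gx e dem ((Z ∪ (IZ Z).biUnion id) ∩ (Z' ∪ (IZ Z').biUnion id)) := by
    refine two_le hpos ⟨s1, m1⟩ (fun X hX hsub => ?_)
    have k1 : X1 = X := by
      by_contra hk
      exact Finset.disjoint_left.1 (mx_disj hpos hX1 hX hk) hs1 (hsub m1)
    have k2 : X2 = X := by
      by_contra hk
      exact Finset.disjoint_left.1 (mx_disj hpos hX2 hX hk) hs2 (hsub m2)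
    exact h12 (k1.trans k2.symm)
  have h4 := tgt_union hn ho ho' (hIZ.sub Z hZ) (hIZ.sub Z' hZ') (hIZ.le2 Z hZ) (hIZ.le2 Z' hZ') h3
  exact hne ((MZ_max hZ Finset.subset_union_left h4).symm.trans
    (MZ_max hZ' Finset.subset_union_right h4))

/-- the overlap of a hub with the rest of a tight set is at least two -/
lemma ov_two {Z X : Finset ι} (hZ : Z ∈ MZ e dem) (hX : X ∈ IZ Z) :
    2 ≤ ovx e X (Z ∪ ((IZ Z).erase X).biUnion id) ∧
      X ∪ (Z ∪ ((IZ Z).erase X).biUnion id) = Z ∪ (IZ Z).biUnion id ∧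
      Disjoint X (Z ∪ ((IZ Z).erase X).biUnion id) := by
  obtain ⟨hn, ho, -⟩ := mem_MZ hZ
  have hXm := hIZ.sub Z hZ hX
  have hd : Disjoint X (Z ∪ ((IZ Z).erase X).biUnion id) := by
    rw [Finset.disjoint_left]
    intro t ht ht'
    rcases Finset.mem_union.1 ht' with h | h
    · exact ho t h X hXm ht
    · obtain ⟨Y, hY, htY⟩ := Finset.mem_biUnion.1 h
      rw [Finset.mem_erase] at hY
      exact Finset.disjoint_left.1 (mx_disj hpos hXm (hIZ.sub Z hZ hY.2) (Ne.symm hY.1)) ht htY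
  have hu : X ∪ (Z ∪ ((IZ Z).erase X).biUnion id) = Z ∪ (IZ Z).biUnion id := by
    ext t
    simp only [Finset.mem_union, Finset.mem_biUnion, Finset.mem_erase, id]
    constructor
    · rintro (h | h | ⟨Y, ⟨-, hY⟩, h⟩)
      · exact Or.inr ⟨X, hX, h⟩
      · exact Or.inl h
      · exact Or.inr ⟨Y, hY, h⟩
    · rintro (h | ⟨Y, hY, h⟩)
      · exact Or.inr (Or.inl h)
      · by_cases hYX : Y = X
        · exact Or.inl (hYX ▸ h)
        · exact Or.inr (Or.inr ⟨Y, ⟨hYX, hY⟩, h⟩)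
  refine ⟨?_, hu, hd⟩
  have h1 := gx_disj e dem hd
  rw [hu, gx_A hpos hIZ hZ, (mem_MX hXm).2] at h1
  have h2 : ¬ gx e dem (Z ∪ ((IZ Z).erase X).biUnion id) ≤ 2 := by
    intro hle
    have h3 := hIZ.min Z hZ _ ((Finset.erase_subset _ _).trans (hIZ.sub Z hZ)) hle
    rw [Finset.card_erase_of_mem hX] at h3
    have h4 := Finset.card_pos.2 ⟨X, hX⟩
    omega
  omega

end

theorem d1 : StmtD1 := by
  intro ι β _ _ e full dem _ hp ht
  have hpos : ∀ A : Finset ι, A.Nonempty → 1 ≤ gx e dem A := by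
    intro A hA
    have := hp A hA
    unfold gx demA
    omega
  have htight : ∀ s, ∃ A : Finset ι, s ∈ A ∧ gx e dem A ≤ 2 := by
    intro s
    obtain ⟨A, hA, h⟩ := ht s
    refine ⟨A, hA, ?_⟩
    unfold gx demA
    omega
  obtain ⟨IZ, hIZ⟩ := exists_goodIZ e dem
  refine ⟨{Z // Z ∈ MZ e dem} ⊕ {X // X ∈ MX e dem ∧ mux e dem IZ X = 0},
    {X // X ∈ MX e dem ∧ 2 ≤ mux e dem IZ X}, inferInstance, inferInstance,
    Sum.elim (fun Z => Z.1 ∪ ((IZ Z.1).filter (fun X => mux e dem IZ X = 1)).biUnion id)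
      (fun X => X.1),
    fun h => h.1,
    Sum.elim (fun Z => Finset.univ.filter (fun h => h.1 ∈ IZ Z.1)) (fun _ => ∅),
    Sum.elim (fun _ => 2) (fun _ => 1), ?_⟩
  -- the tight set of a cluster
  have hmu1 : ∀ Z ∈ MZ e dem, ∀ X ∈ IZ Z, 1 ≤ mux e dem IZ X := by
    intro Z hZ X hX
    unfold mux
    exact Finset.card_pos.2 ⟨Z, Finset.mem_filter.2 ⟨hZ, hX⟩⟩
  have hAj : ∀ Z : {Z // Z ∈ MZ e dem},
      (Z.1 ∪ ((IZ Z.1).filter (fun X => mux e dem IZ X = 1)).biUnion id) ∪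
        ((Finset.univ : Finset {X // X ∈ MX e dem ∧ 2 ≤ mux e dem IZ X}).filter
          (fun h => h.1 ∈ IZ Z.1)).biUnion (fun h => h.1) = Z.1 ∪ (IZ Z.1).biUnion id := by
    intro Z
    ext t
    simp only [Finset.mem_union, Finset.mem_biUnion, Finset.mem_filter, Finset.mem_univ, true_and,
      id]
    constructor
    · rintro ((h | ⟨X, ⟨hX, -⟩, h⟩) | ⟨X, hX, h⟩)
      · exact Or.inl h
      · exact Or.inr ⟨X, hX, h⟩
      · exact Or.inr ⟨X.1, hX, h⟩
    · rintro (h | ⟨X, hX, h⟩)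
      · exact Or.inl (Or.inl h)
      · have h1 := hmu1 Z.1 Z.2 X hX
        by_cases h2 : mux e dem IZ X = 1
        · exact Or.inl (Or.inr ⟨X, ⟨hX, h2⟩, h⟩)
        · exact Or.inr ⟨⟨X, hIZ.sub Z.1 Z.2 hX, by omega⟩, hX, h⟩
  have hdisj : ∀ X ∈ MX e dem, ∀ Y ∈ MX e dem, X ≠ Y → Disjoint X Y :=
    fun X hX Y hY h => mx_disj hpos hX hY h
  have hout : ∀ Z ∈ MZ e dem, ∀ s ∈ Z, ∀ X ∈ MX e dem, s ∉ X := fun Z hZ => (mem_MZ hZ).2.1
  have hov0 : ∀ X ∈ MX e dem, ∀ Y ∈ MX e dem, X ≠ Y →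
      (∀ C, dC e C ≠ 3 → eA e X C = 0 ∨ eA e Y C = 0) ∧
      (∀ C, dC e C = 3 → ¬ (eA e X C = 2 ∧ eA e Y C = 1)) := by
    intro X hX Y hY hXY
    have h := mx_ov hpos hX hY hXY
    unfold ovx at h
    have h1 : (Finset.univ.filter (fun C => dC e C ≠ 3 ∧ eA e X C ≠ 0 ∧ eA e Y C ≠ 0)).card = 0 := by
      omega
    have h2 : (Finset.univ.filter (fun C => dC e C = 3 ∧ eA e X C + eA e Y C = 3 ∧ eA e X C ≠ 0 ∧
      eA e X C ≠ 3)).card = 0 := by omega
    rw [Finset.card_eq_zero, Finset.filter_eq_empty_iff] at h1 h2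
    constructor
    · intro C hC
      by_contra hcon
      exact h1 (Finset.mem_univ C) ⟨hC, fun h => hcon (Or.inl h), fun h => hcon (Or.inr h)⟩
    · rintro C hC ⟨h3, h4⟩
      exact h2 (Finset.mem_univ C) ⟨hC, by omega, by omega, by omega⟩
  constructor
  · -- Zne
    rintro (Z | X)
    · exact (mem_MZ Z.2).1.mono Finset.subset_union_left
    · exact (mem_MX X.2.1).1
  · -- Xne
    intro i
    exact (mem_MX i.2.1).1
  · -- cover
    intro s
    by_cases hs : ∀ X ∈ MX e dem, s ∉ X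
    · obtain ⟨Z0, hsZ0, hZ0⟩ := tgt_exists hpos htight hs
      obtain ⟨Z, hZ0Z, hZ, hmax⟩ := exists_maxset (fun Y => Tgt e dem Y) Z0 hZ0
      have hZm : Z ∈ MZ e dem := by
        unfold MZ
        simp only [Finset.mem_filter, Finset.mem_univ, true_and]
        exact ⟨hZ, hmax⟩
      exact Or.inl ⟨Sum.inl ⟨Z, hZm⟩, Finset.mem_union_left _ (hZ0Z hsZ0)⟩
    · obtain ⟨X, hX, hsX⟩ : ∃ X, X ∈ MX e dem ∧ s ∈ X := by
        by_contra hcon
        exact hs (fun X hX ht' => hcon ⟨X, hX, ht'⟩)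
      rcases Nat.lt_or_ge (mux e dem IZ X) 2 with h2 | h2
      · by_cases h1 : mux e dem IZ X = 0
        · exact Or.inl ⟨Sum.inr ⟨X, hX, h1⟩, hsX⟩
        · have h3 : mux e dem IZ X = 1 := by omega
          have h4 : 0 < mux e dem IZ X := by omega
          unfold mux at h4
          obtain ⟨Z, hZ⟩ := Finset.card_pos.1 h4
          rw [Finset.mem_filter] at hZ
          refine Or.inl ⟨Sum.inl ⟨Z, hZ.1⟩, Finset.mem_union_right _ ?_⟩
          exact Finset.mem_biUnion.2 ⟨X, Finset.mem_filter.2 ⟨hZ.2, h3⟩, hsX⟩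
      · exact Or.inr ⟨⟨X, hX, h2⟩, hsX⟩
  · -- ZZ
    rintro (Z | X) (Z' | X') hne
    · have hne' : Z.1 ≠ Z'.1 := fun h => hne (congrArg Sum.inl (Subtype.ext h))
      simp only [Sum.elim_inl]
      rw [Finset.disjoint_left]
      intro t ht ht'
      rcases Finset.mem_union.1 ht with h | h <;> rcases Finset.mem_union.1 ht' with h' | h'
      · exact Finset.disjoint_left.1 (mz_disj hpos Z.2 Z'.2 hne') h h'
      · obtain ⟨Y, hY, htY⟩ := Finset.mem_biUnion.1 h'
        exact hout _ Z.2 t h Y (hIZ.sub _ Z'.2 (Finset.mem_filter.1 hY).1) htY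
      · obtain ⟨Y, hY, htY⟩ := Finset.mem_biUnion.1 h
        exact hout _ Z'.2 t h' Y (hIZ.sub _ Z.2 (Finset.mem_filter.1 hY).1) htY
      · obtain ⟨Y, hY, htY⟩ := Finset.mem_biUnion.1 h
        obtain ⟨Y', hY', htY'⟩ := Finset.mem_biUnion.1 h'
        rw [Finset.mem_filter] at hY hY'
        by_cases hYY : Y = Y'
        · subst hYY
          have h1 := hY.2
          unfold mux at h1
          obtain ⟨W, hW⟩ := Finset.card_eq_one.1 h1
          have k1 : Z.1 ∈ (MZ e dem).filter (fun Z => Y ∈ IZ Z) := Finset.mem_filter.2 ⟨Z.2, hY.1⟩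
          have k2 : Z'.1 ∈ (MZ e dem).filter (fun Z => Y ∈ IZ Z) :=
            Finset.mem_filter.2 ⟨Z'.2, hY'.1⟩
          rw [hW, Finset.mem_singleton] at k1 k2
          exact hne' (k1.trans k2.symm)
        · exact Finset.disjoint_left.1
            (hdisj _ (hIZ.sub _ Z.2 hY.1) _ (hIZ.sub _ Z'.2 hY'.1) hYY) htY htY'
    · simp only [Sum.elim_inl, Sum.elim_inr]
      rw [Finset.disjoint_left]
      intro t ht ht'
      rcases Finset.mem_union.1 ht with h | h
      · exact hout _ Z.2 t h _ X'.2.1 ht'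
      · obtain ⟨Y, hY, htY⟩ := Finset.mem_biUnion.1 h
        rw [Finset.mem_filter] at hY
        have hYX : Y ≠ X'.1 := by
          intro hh
          have h1 := X'.2.2
          rw [← hh, hY.2] at h1
          omega
        exact Finset.disjoint_left.1 (hdisj _ (hIZ.sub _ Z.2 hY.1) _ X'.2.1 hYX) htY ht'
    · simp only [Sum.elim_inl, Sum.elim_inr]
      rw [Finset.disjoint_left]
      intro t ht' ht
      rcases Finset.mem_union.1 ht with h | h
      · exact hout _ Z'.2 t h _ X.2.1 ht'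
      · obtain ⟨Y, hY, htY⟩ := Finset.mem_biUnion.1 h
        rw [Finset.mem_filter] at hY
        have hYX : Y ≠ X.1 := by
          intro hh
          have h1 := X.2.2
          rw [← hh, hY.2] at h1
          omega
        exact Finset.disjoint_left.1 (hdisj _ (hIZ.sub _ Z'.2 hY.1) _ X.2.1 hYX) htY ht'
    · simp only [Sum.elim_inr]
      exact hdisj _ X.2.1 _ X'.2.1 (fun h => hne (congrArg Sum.inr (Subtype.ext h)))
  · -- XX
    intro i i' hne
    exact hdisj _ i.2.1 _ i'.2.1 (fun h => hne (Subtype.ext h))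
  · -- ZX
    rintro (Z | X) i
    · simp only [Sum.elim_inl]
      rw [Finset.disjoint_left]
      intro t ht ht'
      rcases Finset.mem_union.1 ht with h | h
      · exact hout _ Z.2 t h _ i.2.1 ht'
      · obtain ⟨Y, hY, htY⟩ := Finset.mem_biUnion.1 h
        rw [Finset.mem_filter] at hY
        have hYX : Y ≠ i.1 := by
          intro hh
          have h1 := i.2.2
          rw [← hh, hY.2] at h1
          omega
        exact Finset.disjoint_left.1 (hdisj _ (hIZ.sub _ Z.2 hY.1) _ i.2.1 hYX) htY ht'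
    · simp only [Sum.elim_inr]
      refine hdisj _ X.2.1 _ i.2.1 (fun h => ?_)
      have h1 := X.2.2
      have h2 := i.2.2
      rw [h] at h1
      omega
  · -- gam12
    rintro (Z | X)
    · exact Or.inr rfl
    · exact Or.inl ⟨rfl, rfl⟩
  · -- rAj
    rintro (Z | X)
    · unfold Aj
      simp only [Sum.elim_inl]
      rw [hAj Z]
      have h := gx_A hpos hIZ Z.2
      unfold gx at h
      omega
    · unfold Aj
      simp only [Sum.elim_inr, Finset.biUnion_empty, Finset.union_empty]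
      have h := (mem_MX X.2.1).2
      unfold gx at h
      omega
  · -- rX
    intro i
    have h := (mem_MX i.2.1).2
    unfold gx at h
    omega
  · -- excl5
    intro i i' hne C hC
    exact (hov0 _ i.2.1 _ i'.2.1 (fun h => hne (Subtype.ext h))).1 C hC
  · -- excl3
    intro i i' hne C hC
    exact (hov0 _ i.2.1 _ i'.2.1 (fun h => hne (Subtype.ext h))).2 C hC
  · -- mu2
    intro i
    have h1 := i.2.2
    unfold mux at h1
    refine h1.trans ?_
    have h2 : (((MZ e dem).filter (fun Z => i.1 ∈ IZ Z)).attach).card =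
        ((MZ e dem).filter (fun Z => i.1 ∈ IZ Z)).card := Finset.card_attach
    rw [← h2]
    refine Finset.card_le_card_of_injOn
      (fun Z => Sum.inl ⟨Z.1, (Finset.mem_filter.1 Z.2).1⟩) ?_ ?_
    · intro Z _
      simp only [Finset.coe_filter, Finset.mem_univ, true_and, Set.mem_ofPred_eq, Sum.elim_inl,
        Finset.mem_filter]
      exact (Finset.mem_filter.1 Z.2).2
    · intro Z _ Z' _ h
      have h3 := Sum.inl.inj h
      exact Subtype.ext (Subtype.mk.inj h3)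
  · -- inter1
    rintro (Z | X) (Z' | X') hne
    · have hne' : Z.1 ≠ Z'.1 := fun h => hne (congrArg Sum.inl (Subtype.ext h))
      refine le_trans ?_ (inter_le hpos hIZ Z.2 Z'.2 hne')
      simp only [Sum.elim_inl]
      refine Finset.card_le_card_of_injOn (fun h => h.1) ?_ ?_
      · intro h hh
        rw [Finset.mem_coe] at hh ⊢
        rw [@Finset.mem_inter] at hh ⊢
        exact ⟨(Finset.mem_filter.1 hh.1).2, (Finset.mem_filter.1 hh.2).2⟩
      · intro h _ h' _ hh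
        exact Subtype.ext hh
    · simp
    · simp
    · simp
  · -- ov2
    rintro (Z | X) i hi
    · simp only [Sum.elim_inl, Finset.mem_filter, Finset.mem_univ, true_and] at hi
      obtain ⟨h1, h2, h3⟩ := ov_two hpos hIZ Z.2 hi
      refine h1.trans ?_
      unfold ovx
      refine Nat.add_le_add (Finset.card_le_card ?_) (Finset.card_le_card ?_)
      · intro C hC
        rw [Finset.mem_filter] at hC ⊢
        refine ⟨hC.1, hC.2.1, hC.2.2.1, ?_⟩
        obtain ⟨s, hs, hsC⟩ := Finset.exists_ne_zero_of_sum_ne_zero hC.2.2.2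
        rcases Finset.mem_union.1 hs with h | h
        · simp only [Sum.elim_inl]
          intro h0
          unfold eA at h0
          rw [Finset.sum_eq_zero_iff] at h0
          exact hsC (h0 s (Finset.mem_union_left _ h))
        · exfalso
          obtain ⟨Y, hY, htY⟩ := Finset.mem_biUnion.1 h
          rw [Finset.mem_erase] at hY
          rcases (hov0 _ i.2.1 _ (hIZ.sub _ Z.2 hY.2) (Ne.symm hY.1)).1 C hC.2.1 with h0 | h0
          · exact hC.2.2.1 h0
          · unfold eA at h0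
            rw [Finset.sum_eq_zero_iff] at h0
            exact hsC (h0 s htY)
      · intro C hC
        rw [Finset.mem_filter] at hC ⊢
        refine ⟨hC.1, hC.2.1, ?_, hC.2.2.2⟩
        unfold Aj
        simp only [Sum.elim_inl]
        rw [hAj Z, ← h2, eA_union h3]
        exact hC.2.2.1
    · simp only [Sum.elim_inr, Finset.notMem_empty] at hi

end Pool.Agent.H36.F14
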